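import Pool.Agent.Y674.HY.Stm2
import Pool.Agent.Y405.HY.Exps

/-!
# Project HY, part 2, the statement EXPI: the expansion of the square root with integral
coefficients
-/

set_option autoImplicit false

namespace Pool.Agent.Y436.HY

open Polynomial Finset Pool.Agent.Y405.HY

theorem exps_bt (d : ℕ) : ∃ C : ℝ, 0 ≤ C ∧
    ∀ (u : ℝ) (z : ℂ), 0 < u → 2 * ‖z‖ ≤ u ^ 2 → ∃ θ : ℂ, θ ^ 2 = (u : ℂ) ^ 2 - z ∧
      ‖θ - u * ∑ j ∈ Finset.range (d + 1), (bt j : ℂ) * (z / (u : ℂ) ^ 2) ^ j‖ ≤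
        C * u * (‖z‖ / u ^ 2) ^ (d + 1) := by
  obtain ⟨V, hV⟩ := tay_sq d
  -- bounds on the unit disc
  obtain ⟨V0, hV0⟩ := (isCompact_closedBall (0 : ℂ) 1).exists_bound_of_continuousOn
    (f := fun q => V.eval q) V.continuous.continuousOn
  obtain ⟨M, hM⟩ := (isCompact_closedBall (0 : ℂ) 1).exists_bound_of_continuousOn
    (f := fun q => (tay d).eval q) (tay d).continuous.continuousOn
  have h0mem : (0 : ℂ) ∈ Metric.closedBall (0 : ℂ) 1 := by simp
  have hV00 : 0 ≤ V0 := (norm_nonneg _).trans (hV0 0 h0mem)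
  have hM0 : 0 ≤ M := (norm_nonneg _).trans (hM 0 h0mem)
  have hT0 : (tay d).eval 0 = 1 := by
    rw [← coeff_zero_eq_eval_zero, coeff_tay, if_pos (Nat.zero_le _)]
    simp [bt]
  obtain ⟨q0, hq0, hq0'⟩ := Metric.continuousAt_iff.mp ((tay d).continuous.continuousAt (x := 0)) 1
    one_pos
  rw [hT0] at hq0'
  refine ⟨2 * V0 + (2 + M) / q0 ^ (d + 1), by positivity, ?_⟩
  intro u z hu hz
  obtain ⟨q, hq⟩ : ∃ q : ℂ, q = z / (u : ℂ) ^ 2 := ⟨_, rfl⟩
  have huC : (u : ℂ) ≠ 0 := by exact_mod_cast hu.ne'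
  have hqn : ‖q‖ = ‖z‖ / u ^ 2 := by
    rw [hq, norm_div, norm_pow, Complex.norm_real, Real.norm_eq_abs, abs_of_pos hu]
  have hq2 : ‖q‖ ≤ 1 / 2 := by
    rw [hqn, div_le_iff₀ (by positivity)]
    linarith
  have hqm : q ∈ Metric.closedBall (0 : ℂ) 1 := by
    rw [mem_closedBall_zero_iff]
    linarith
  -- the square root
  obtain ⟨t, ht1, ht2⟩ : ∃ t : ℂ, t ^ 2 = 1 - q ∧ 0 ≤ t.re := by
    obtain ⟨w, hw⟩ := IsAlgClosed.exists_pow_nat_eq (1 - q) (n := 2) two_pos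
    rcases le_total 0 w.re with h | h
    · exact ⟨w, hw, h⟩
    · exact ⟨-w, by rw [neg_sq, hw], by rw [Complex.neg_re]; linarith⟩
  have hre : 1 / 2 ≤ t.re := by
    have h1 : (t ^ 2).re = 1 - q.re := by rw [ht1]; simp
    have h2 : (t ^ 2).re = t.re ^ 2 - t.im ^ 2 := by
      rw [sq, Complex.mul_re]
      ring
    have h3 : q.re ≤ 1 / 2 := (Complex.re_le_norm q).trans hq2
    by_contra hcon
    push Not at hcon
    have h4 : t.re ^ 2 < 1 / 4 := by nlinarith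
    nlinarith [sq_nonneg t.im]
  have hmain : ‖t - (tay d).eval q‖ ≤ (2 * V0 + (2 + M) / q0 ^ (d + 1)) * ‖q‖ ^ (d + 1) := by
    have hA : 0 ≤ 2 * V0 * ‖q‖ ^ (d + 1) := by positivity
    have hB : 0 ≤ (2 + M) / q0 ^ (d + 1) * ‖q‖ ^ (d + 1) := by positivity
    rcases lt_or_ge ‖q‖ q0 with hlt | hge
    · have h1 : (t - (tay d).eval q) * (t + (tay d).eval q) = - (q ^ (d + 1) * V.eval q) := by
        have h2 : ((tay d).eval q) ^ 2 = 1 - q + q ^ (d + 1) * V.eval q := by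
          rw [← eval_pow, hV]
          simp
        linear_combination ht1 - h2
      have h3 : 1 / 2 ≤ ‖t + (tay d).eval q‖ := by
        have h4 := @hq0' q (by rwa [dist_zero_right])
        rw [dist_eq_norm] at h4
        have h5 : 0 ≤ ((tay d).eval q).re := by
          have h6 := (Complex.abs_re_le_norm ((tay d).eval q - 1)).trans h4.le
          rw [abs_le, Complex.sub_re, Complex.one_re] at h6
          linarith [h6.1]
        have h7 := Complex.re_le_norm (t + (tay d).eval q)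
        rw [Complex.add_re] at h7
        linarith
      have h8 : ‖t - (tay d).eval q‖ * ‖t + (tay d).eval q‖ ≤ ‖q‖ ^ (d + 1) * V0 := by
        rw [← norm_mul, h1, norm_neg, norm_mul, norm_pow]
        exact mul_le_mul_of_nonneg_left (hV0 q hqm) (by positivity)
      have h9 : ‖t - (tay d).eval q‖ * (1 / 2) ≤ ‖t - (tay d).eval q‖ * ‖t + (tay d).eval q‖ :=
        mul_le_mul_of_nonneg_left h3 (norm_nonneg _)
      nlinarith
    · have h1 : ‖t‖ ≤ 2 := by
        have h2 : ‖t‖ ^ 2 ≤ 3 / 2 := by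
          rw [← norm_pow, ht1]
          refine (norm_sub_le _ _).trans ?_
          rw [norm_one]
          linarith
        nlinarith [norm_nonneg t]
      have h2 : ‖t - (tay d).eval q‖ ≤ 2 + M := (norm_sub_le _ _).trans (add_le_add h1 (hM q hqm))
      have h3 : 2 + M ≤ (2 + M) / q0 ^ (d + 1) * ‖q‖ ^ (d + 1) := by
        rw [div_mul_eq_mul_div, le_div_iff₀ (by positivity)]
        exact mul_le_mul_of_nonneg_left (pow_le_pow_left₀ hq0.le hge _) (by positivity)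
      nlinarith
  refine ⟨u * t, ?_, ?_⟩
  · rw [mul_pow, ht1, hq]
    field_simp
  · have h1 : (tay d).eval q = ∑ j ∈ range (d + 1), (bt j : ℂ) * (z / (u : ℂ) ^ 2) ^ j := by
      rw [tay, eval_finsetSum]
      refine sum_congr rfl fun j _ => ?_
      rw [eval_mul, eval_C, eval_pow, eval_X, hq]
    rw [← h1, ← mul_sub, norm_mul, Complex.norm_real, Real.norm_eq_abs, abs_of_pos hu, ← hqn]
    have := mul_le_mul_of_nonneg_left hmain hu.le
    linarith

/-- the integral coefficients -/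
def bi : ℕ → ℤ
  | 0 => 1
  | (j + 1) => - 2 * (catalan j : ℤ)

theorem bt_eq (j : ℕ) : bt j = (bi j : ℝ) / 4 ^ j := by
  cases j with
  | zero => simp [bt, bi]
  | succ j =>
    show - 2 * (catalan j : ℝ) / 4 ^ (j + 1) = ((- 2 * (catalan j : ℤ) : ℤ) : ℝ) / 4 ^ (j + 1)
    push_cast
    rfl

theorem expi : Pool.Agent.Y674.HY.EXPI := by
  refine ⟨bi, rfl, fun κ => ?_⟩
  obtain ⟨C, hC, h⟩ := exps_bt κ
  refine ⟨C * 4 ^ (κ + 1), by positivity, fun v z hv hz => ?_⟩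
  have h4 : ‖4 * z‖ = 4 * ‖z‖ := by
    rw [norm_mul]
    norm_num
  obtain ⟨θ, hθ, hθ2⟩ := h v (4 * z) hv (by rw [h4]; linarith)
  refine ⟨θ, hθ, ?_⟩
  have h5 : ∑ j ∈ Finset.range (κ + 1), (bt j : ℂ) * (4 * z / (v : ℂ) ^ 2) ^ j =
      ∑ l ∈ Finset.range (κ + 1), (bi l : ℂ) * (z / (v : ℂ) ^ 2) ^ l := by
    refine sum_congr rfl fun j _ => ?_
    rw [bt_eq]
    push_cast
    rw [mul_div_assoc, mul_pow]
    have h6 : (4 : ℂ) ^ j ≠ 0 := pow_ne_zero _ (by norm_num)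
    field_simp
  rw [h5, h4] at hθ2
  refine hθ2.trans (le_of_eq ?_)
  rw [mul_div_assoc, mul_pow]
  ring

end Pool.Agent.Y436.HY
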